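import Mathlib
import Pool.Agent.Q292.Stack.ZeroOne

/-!
# The logarithmic moment condition for stacked random boxes is not sharp

For every `d = D + 1 ≥ 2` there are a law on `{1, 2, …}` with `E log X = ∞` and `p₀ ∈ (0, p_c)` such
that for all `p ≤ p₀`, all `q < 1` and almost every environment there is no percolation.
-/

namespace Pool.Agent.Results.MP_c59c01_pr.LogMomentNotSharp

open Q292.Stack MeasureTheory

theorem result :
    ∀ D : ℕ, 1 ≤ D → ∃ (law : Measure ℕ) (_ : IsProbabilityMeasure law), law {0} = 0 ∧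
      ∫⁻ x, ENNReal.ofReal (Real.log x) ∂law = ⊤ ∧
      ∃ p₀ : ℝ, 0 < p₀ ∧ p₀ < pc D ∧
        ∀ p q : unitInterval, (p : ℝ) ≤ p₀ → (q : ℝ) < 1 →
          ∀ᵐ X ∂(Measure.infinitePi fun _ : ℤ => law), theta D (region D X) p q = 0 := by
  intro D _
  refine ⟨sizeLaw, inferInstance, sizeLaw_zero, log_moment, 1 / (8 * 3 ^ D * (D + 1)),
    by positivity, ?_, fun p q hp hq => ?_⟩
  · have h1 : 1 / (4 * ((D : ℝ) + 1)) ≤ pc D := by
      refine le_pc (by positivity) ?_
      rw [mul_one_div, div_lt_one (by positivity)]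
      have : (0 : ℝ) ≤ D := by positivity
      linarith
    refine lt_of_lt_of_le ?_ h1
    have h3 : (1 : ℝ) ≤ 3 ^ D := one_le_pow₀ (by norm_num)
    apply one_div_lt_one_div_of_lt (by positivity)
    have h4 : (0 : ℝ) ≤ D := by positivity
    nlinarith
  · have h := ae_env
    unfold envLaw at h
    filter_upwards [h] with X hX
    refine theta_zero hX.1 hX.2 p q ?_ hq
    have h3 : (0 : ℝ) < 8 * 3 ^ D * (D + 1) := by positivity
    rw [le_div_iff₀ h3] at hp
    linarith

end Pool.Agent.Results.MP_c59c01_pr.LogMomentNotSharp
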